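import Pool.Agent.Lib_helper65.RB.Main
import Pool.Agent.Lib_helper14.RB.MP13
import Pool.Agent.Lib_helper65.RBO.All

/-!
# MP_247194_an: the basin of `√2` for `x_{n+1} = 1/x_{n-k} + 1/x_{n-l}`

`Basin k l`, `Semialgebraic` and the scaling `scl` are defined in
`Pool/Agent/Lib_helper65/RB/Defs.lean`; first-order definability `FO`, `DefinableFrom` and
`FinUnionIntervals` in `Pool/Agent/Lib_helper65/RBO/Defs.lean`; the double series `dser c s t` and
its restricted graph `graphSer ε c` in `Pool/Agent/Lib_helper65/RBO/P5s.lean`.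

Strategy of the first three clauses: see `Pool/Agent/Lib_helper65/Superseded/Dichotomy.lean`,
whose statement is contained in this one word for word.

Clause (4), ratio different from `1 : 3`: for the reduced pair `(1, 5)` the limit functional has
certified log-periodic oscillations along a line; for `a + b ≥ 8` the size of the limit functional
on initial data with two adjacent small even cells `t (A, B)` is compared, as `t → 0`, through the
autonomous dynamics `(A, B) ↦ (A + AB/(A+B), B + AB/(A+B))` of the two cells, whose rescaled growth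
oscillates log-periodically as `A/B → 0` (by one certified inequality with relative margin
`4 · 10^(-12)`); the set of `A/B` for which one family wins is definable from the basin and is not
a finite union of intervals.

Clause (5), ratio `1 : 3`: the products `p_n = x_n x_{n+d}` satisfy `p_{n+2d} = 1 + p_{n+d}/p_n`
and converge to `2` uniformly over all positive initial data; near the fixed point the complexified
recursion converges uniformly on a polydisc, so the limit functional is a convergent power series
there.
-/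

namespace Pool.Agent.Results.MP_247194_an.Classification

open Pool.Agent.Lib_helper65.RB Pool.Agent.Lib_helper65.RBO

theorem result :
    (∀ k l : ℕ,
      (Basin k l = {v | ∀ i, 0 < v i} ↔ padicValNat 2 (k + 1) ≠ padicValNat 2 (l + 1)) ∧
      (k = l → Basin k l = {fun _ => √2}) ∧
      (k ≠ l → padicValNat 2 (k + 1) = padicValNat 2 (l + 1) →
        ¬ Semialgebraic (Basin k l) ∧
        (∀ P : MvPolynomial (Fin (max k l + 1)) ℝ,
          (∀ v ∈ Basin k l, MvPolynomial.eval v P = 0) → P = 0) ∧
        (∀ v : Fin (max k l + 1) → ℝ, (∀ i, 0 < v i) →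
          ∃! c : ZMod (Nat.gcd (k + 1) (l + 1)) → ℝ,
            (∀ r, 0 < c r) ∧ scl (Nat.gcd (k + 1) (l + 1)) v c ∈ Basin k l) ∧
        (max k l + 1 ≠ 3 * (min k l + 1) →
          ∃ Z : Set ℝ, DefinableFrom (Basin k l) Z ∧ ¬ FinUnionIntervals Z))) ∧
    (∃ (n : ℕ) (ε : ℝ) (c : ℕ → ℕ → ℝ), 0 < ε ∧ ε < 1 ∧
      Summable (fun p : ℕ × ℕ => |c p.1 p.2| * ε ^ (p.1 + p.2)) ∧ c 0 0 = 1 ∧
      (∀ u v : ℝ, |u - 2| ≤ ε / 8 → |v - 2| ≤ ε / 8 →
        u * dser c (u - 2) (v - 2) = v * dser c (v / u - 1) (1 / u + 1 / v - 1)) ∧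
      ∀ k l : ℕ, max k l + 1 = 3 * (min k l + 1) →
        FO (graphSer ε c) {x | (fun i : Fin (max k l + 1) => x i) ∈ Basin k l} ∧
        ∀ x : ℕ → ℝ, (∀ i ≤ max k l, 0 < x i) →
          (∀ j, x (j + max k l + 1) = 1 / x (j + max k l - k) + 1 / x (j + max k l - l)) →
          (∀ i, n * (min k l + 1) ≤ i → |x i * x (i + (min k l + 1)) - 2| ≤ ε / 2) ∧
          ((fun i : Fin (max k l + 1) => x i) ∈ Basin k l ↔
            ∀ i, n * (min k l + 1) ≤ i → i < (n + 1) * (min k l + 1) →
              x i * dser c (x i * x (i + (min k l + 1)) - 2)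
                (x (i + (min k l + 1)) * x (i + 2 * (min k l + 1)) - 2) = √2)) := by
  refine ⟨fun k l => ?_, ratio13⟩
  obtain ⟨h1, h2, h3⟩ := main Pool.Agent.Lib_helper14.RB.no_rel_13 k l
  refine ⟨h1, h2, fun hkl hv => ?_⟩
  obtain ⟨g1, g2, g3⟩ := h3 hkl hv
  refine ⟨g1, g2, g3, fun hne => ?_⟩
  apply Pool.Agent.Lib_helper72.RBO.main4 k l hkl hv
  · intro h
    apply hne
    rw [max_eq_left (by omega), min_eq_right (by omega), h]
  · intro h
    apply hne
    rw [max_eq_right (by omega), min_eq_left (by omega), h]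

end Pool.Agent.Results.MP_247194_an.Classification
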