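import Pool.Agent.Lib_helper65.RB.Main
import Pool.Agent.Lib_helper14.RB.MP13

/-!
# MP_247194_an: the basin of `√2` for `x_{n+1} = 1/x_{n-k} + 1/x_{n-l}`

`Basin k l`, `Semialgebraic` and the scaling `scl` are defined in
`Pool/Agent/Lib_helper65/RB/Defs.lean`.

Strategy. Put `a = k + 1`, `b = l + 1`, `d = gcd a b`. The equation splits into `d` copies of the
equation for `(a/d, b/d)`. If the 2-adic valuations of `a` and `b` differ, `a/d` and `b/d` have
opposite parity and a contraction argument gives convergence to `√2`. If they agree, both are odd,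
and `w_n = y_n` (`n` even), `w_n = 2/y_n` (`n` odd) satisfies a recursion in which each term is
alternately the arithmetic and the harmonic mean of two earlier terms; it converges to a limit
`LL`, monotone and homogeneous in the initial data, and the basin is `LL = √2`. Along monomial
curves (parameter `t → 0`) the limit is comparable to `t^α` with `α` irrational if `a + b ≥ 8`
(reduced pair), to `√t` with persistent (log-periodic) oscillation if `(a, b) = (1, 5)`, and for
`(a, b) = (1, 3)` a polynomial relation would give a rational solution of the functional equation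
`R(u,v) R(v,1+v/u) = v^D`, which is impossible. In all cases no nonzero polynomial vanishes on the
basin, whereas the basin has empty interior; so it is not semialgebraic.
-/

namespace Pool.Agent.Results.MP_247194_an.Dichotomy

open Pool.Agent.Lib_helper65.RB

theorem result (k l : ℕ) :
    (Basin k l = {v | ∀ i, 0 < v i} ↔ padicValNat 2 (k + 1) ≠ padicValNat 2 (l + 1)) ∧
    (k = l → Basin k l = {fun _ => √2}) ∧
    (k ≠ l → padicValNat 2 (k + 1) = padicValNat 2 (l + 1) →
      ¬ Semialgebraic (Basin k l) ∧
      (∀ P : MvPolynomial (Fin (max k l + 1)) ℝ,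
        (∀ v ∈ Basin k l, MvPolynomial.eval v P = 0) → P = 0) ∧
      (∀ v : Fin (max k l + 1) → ℝ, (∀ i, 0 < v i) →
        ∃! c : ZMod (Nat.gcd (k + 1) (l + 1)) → ℝ,
          (∀ r, 0 < c r) ∧ scl (Nat.gcd (k + 1) (l + 1)) v c ∈ Basin k l)) :=
  main Pool.Agent.Lib_helper14.RB.no_rel_13 k l

end Pool.Agent.Results.MP_247194_an.Dichotomy
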